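import Pool.Agent.Helper14.TT.StG
import Pool.Agent.Helper92.CV.M_Itr
import Pool.Agent.Helper69.TT.M_ItrT

/-!
# Project TT, module ItrD: iteration for the twisted path, composite conductors
-/

set_option autoImplicit false

namespace Pool.Agent.Helper53.TT

open Pool.Agent.Helper14.TT Pool.Agent.Helper14.CV
open Pool.Agent.Helper92.CV (Ph iter3 iter5 step5 low_L3 eq_of_add_zero)

section

variable {r s : ℕ}

private theorem comm35 (hc : (dx * dy : Module.End (ZMod 2) (Fn (2 ^ r) (2 ^ s))) = dy * dx) :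
    Commute (L3 : Module.End (ZMod 2) (Fn (2 ^ r) (2 ^ s))) L5 := by
  have h : Commute (dx : Module.End (ZMod 2) (Fn (2 ^ r) (2 ^ s))) dy := hc
  have hx : Commute (dx : Module.End (ZMod 2) (Fn (2 ^ r) (2 ^ s))) (dx ^ 2 * dy ^ 2) :=
    ((Commute.refl _).pow_right 2).mul_right (h.pow_right 2)
  have hy : Commute (dy : Module.End (ZMod 2) (Fn (2 ^ r) (2 ^ s))) (dx ^ 2 * dy ^ 2) :=
    (h.symm.pow_right 2).mul_right ((Commute.refl _).pow_right 2)
  unfold L3 L5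
  exact (hx.mul_left hy).mul_left (hx.add_left hy)

/-- the common argument -/
private theorem fin_gen {O : Module.End (ZMod 2) (Fn (2 ^ r) (2 ^ s))} {k e : ℤ}
    (hmono : ∀ d d' : ℤ, d ≤ d' → (Wd d : Submodule (ZMod 2) (Fn (2 ^ r) (2 ^ s))) ≤ Wd d')
    (hz : ∀ F : Fn (2 ^ r) (2 ^ s), F ∈ Wd (-1) → F = 0)
    (hO : Low O k) {F H : Fn (2 ^ r) (2 ^ s)} (hF : F ∈ Wd e) (hH : F + H ∈ Wd (e - 1)) :
    (e < k → O F = 0) ∧ (e = k → O F = O H) := by
  constructor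
  · intro h
    exact hz _ (hmono _ _ (by linarith [Int.add_one_le_iff.2 h]) (hO e F hF))
  · intro h
    have h1 := hz _ (hmono _ (-1) (by linarith) (hO (e - 1) _ hH))
    rw [map_add] at h1
    exact eq_of_add_zero h1

end

/-- ITRD. -/
theorem hItrD (hX3 : X3) (hA : X7A) (hB : X7B) (hC5 : C5) (hRel : StRel) (hHkB : StHkB)
    (hHk3 : StHk3) (hHk5 : StHk5) (hLow0 : StLow0) (hLd3 : StLd3) (hLd5 : StLd5) : ItrD := by
  have hT := Pool.Agent.Helper69.TT.hItrT hX3 hA hB hRel hHkB hHk3 hHk5 hLow0 hLd3 hLd5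
  intro D r s G F1 d hD hr hs hrs hG hF1 hd i j
  rcases hD with ⟨hp, h8⟩ | h7 | ⟨l, hl, hl8, rfl⟩
  · have hsh : shd D = sh D := by
      unfold shd sh
      rw [if_neg (by omega), if_neg (by omega)]
    rw [hsh]
    exact hT D r s G F1 d ⟨hp, Or.inl h8⟩ hr hs hrs hG hF1 hd i j
  · subst h7
    have hsh : shd 7 = sh 7 := rfl
    rw [hsh]
    exact hT 7 r s G F1 d ⟨by norm_num, Or.inr rfl⟩ hr hs hrs hG hF1 hd i j
  · have hsh : shd (5 * l) = 1 := by
      unfold shd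
      rw [if_pos (by omega)]
    rw [hsh]
    have hF : F1 = Ph r s G := by
      funext x y
      exact hF1 x y
    rw [hF] at hd ⊢
    obtain ⟨a1, a2, a3⟩ := iter5 hRel hHkB hHk5 hLow0 hLd5 hrs hG hd j
    obtain ⟨b1, b2, b3⟩ := iter3 hRel hHkB hHk3 hLow0 hLd3 hrs a1 a2 a3 i
    obtain ⟨c1, c2, c3⟩ := step5 hRel hHkB hHk5 hLow0 hLd5 hrs b1 b2 b3
    obtain ⟨-, -, -, hmono, -, -, -, hc, -, -, -, -, hz⟩ := hLow0 r s
    have hev : evXb (5 * l) (2 ^ (r + 1)) G i j =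
        eXb l (2 ^ (r + 1)) (Tl 5 (2 ^ (r + 1))
          ((Tl 3 (2 ^ (r + 1)))^[i] ((Tl 5 (2 ^ (r + 1)))^[j] G))) :=
      hC5 l r s _ hl hl8 b1
    have hgen := fin_gen (e := (d : ℤ) - 4 * j - 3 * i - 4) hmono hz (low_L3 hLow0) c2 c3
    have hval : (d : ℤ) - 4 * j - 3 * i - 4 ≤ 3 → eXb l (2 ^ (r + 1)) (Tl 5 (2 ^ (r + 1))
          ((Tl 3 (2 ^ (r + 1)))^[i] ((Tl 5 (2 ^ (r + 1)))^[j] G))) =
        ((L3 : Module.End (ZMod 2) (Fn (2 ^ r) (2 ^ s)))
          (Ph r s (Tl 5 (2 ^ (r + 1))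
            ((Tl 3 (2 ^ (r + 1)))^[i] ((Tl 5 (2 ^ (r + 1)))^[j] G))))) 0 0 := fun h =>
      hX3 l r s _ _ hl hl8 hr hs c1 (fun _ _ => rfl) (hmono _ _ h c2)
    constructor
    · intro hlt
      have h1 : (d : ℤ) - 4 * j - 3 * i - 4 < 3 := by
        have : (d : ℤ) < 3 * (i + 1) + 4 * (j + 1) := by exact_mod_cast hlt
        linarith
      rw [hev, hval h1.le, hgen.1 h1]
      rfl
    · intro heq
      have h1 : (d : ℤ) - 4 * j - 3 * i - 4 = 3 := by
        have : (3 * (i + 1) + 4 * (j + 1) : ℤ) = d := by exact_mod_cast heq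
        linarith
      have hcm := (comm35 (r := r) (s := s) hc).symm.pow_right i
      have e : (L3 ^ (i + 1) * L5 ^ (j + 1) : Module.End (ZMod 2) (Fn (2 ^ r) (2 ^ s))) =
          L3 * (L5 * (L3 ^ i * L5 ^ j)) := by
        rw [pow_succ', pow_succ' L5, mul_assoc, ← mul_assoc (L3 ^ i) L5, ← hcm.eq, mul_assoc L5]
      rw [hev, hval h1.le, hgen.2 h1, e, Module.End.mul_apply L3, Module.End.mul_apply L5,
        Module.End.mul_apply (L3 ^ i)]

end Pool.Agent.Helper53.TT
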