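import Pool.Agent.Helper14.TT.StL

/-!
# Project TT, module CntT: counting the index set
-/

set_option autoImplicit false

namespace Pool.Agent.Helper53.TT

open Pool.Agent.Helper14.TT Pool.Agent.Helper14.CV

/-- Counting the numbers `1 ≤ i < c`. -/
private theorem inner (A c : ℕ) (h : c ≤ A) :
    (∑ i ∈ Finset.range A, if 1 ≤ i ∧ i < c then 1 else 0) = c - 1 := by
  rw [← Finset.sum_filter, Finset.sum_const, smul_eq_mul, mul_one]
  have : (Finset.range A).filter (fun i => 1 ≤ i ∧ i < c) = Finset.Ico 1 c := by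
    ext i
    simp only [Finset.mem_filter, Finset.mem_range, Finset.mem_Ico]
    omega
  rw [this, Nat.card_Ico]

private theorem gauss (M : ℕ) : (∑ j ∈ Finset.range M, (M - j)) * 2 = M * (M + 1) := by
  induction M with
  | zero => simp
  | succ M ih =>
    rw [Finset.sum_range_succ']
    have h : (∑ k ∈ Finset.range M, (M + 1 - (k + 1))) = ∑ k ∈ Finset.range M, (M - k) :=
      Finset.sum_congr rfl fun k _ => by omega
    rw [h, add_mul, ih]
    simp only [Nat.sub_zero]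
    ring

private theorem gauss2 (M : ℕ) : (∑ j ∈ Finset.range M, (2 * (M - j) - 1)) = M * M := by
  induction M with
  | zero => simp
  | succ M ih =>
    rw [Finset.sum_range_succ']
    have h : (∑ k ∈ Finset.range M, (2 * (M + 1 - (k + 1)) - 1)) =
        ∑ k ∈ Finset.range M, (2 * (M - k) - 1) :=
      Finset.sum_congr rfl fun k _ => by omega
    rw [h, ih]
    have h2 : 2 * (M + 1 - 0) - 1 = 2 * M + 1 := by omega
    rw [h2]
    ring

/-- The terms beyond `M` vanish. -/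
private theorem outer (B M : ℕ) (h : M ≤ B) :
    (∑ j ∈ Finset.range B, (M - j)) * 2 = M * (M + 1) := by
  rw [← gauss M]
  congr 1
  symm
  apply Finset.sum_subset
  · intro j hj
    simp only [Finset.mem_range] at hj ⊢
    omega
  · intro j _ hj
    simp only [Finset.mem_range] at hj
    omega

private theorem outer2 (B M : ℕ) (h : M ≤ B) :
    (∑ j ∈ Finset.range B, (2 * (M - j) - 1)) = M * M := by
  rw [← gauss2 M]
  symm
  apply Finset.sum_subset
  · intro j hj
    simp only [Finset.mem_range] at hj ⊢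
    omega
  · intro j _ hj
    simp only [Finset.mem_range] at hj
    omega

/-- Shifting the index. -/
private theorem shift (B s : ℕ) (f : ℕ → ℕ) :
    (∑ j ∈ Finset.range B, if s ≤ j then f j else 0) = ∑ j ∈ Finset.range (B - s), f (s + j) := by
  rw [← Finset.sum_filter]
  have : (Finset.range B).filter (fun j => s ≤ j) = Finset.Ico s B := by
    ext j
    simp only [Finset.mem_filter, Finset.mem_range, Finset.mem_Ico]
    omega
  rw [this, Finset.sum_Ico_eq_sum_range]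

/-- The triangle `i + j < M`, `1 ≤ i`, `s ≤ j`. -/
private theorem tri (A B M s : ℕ) (hA : M ≤ A) (hB : M ≤ B) :
    ((Finset.range A ×ˢ Finset.range B).filter
      fun t : ℕ × ℕ => t.1 + t.2 < M ∧ 1 ≤ t.1 ∧ s ≤ t.2).card * 2 =
      (M - 1 - s) * (M - 1 - s + 1) := by
  rw [Finset.card_filter, Finset.sum_product_right]
  have h : (∑ j ∈ Finset.range B, ∑ i ∈ Finset.range A,
      if i + j < M ∧ 1 ≤ i ∧ s ≤ j then 1 else 0) =
      ∑ j ∈ Finset.range B, if s ≤ j then M - 1 - j else 0 := by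
    apply Finset.sum_congr rfl
    intro j _
    by_cases hs : s ≤ j
    · rw [if_pos hs]
      have h2 : M - 1 - j = M - j - 1 := by omega
      rw [h2, ← inner A (M - j) (by omega)]
      apply Finset.sum_congr rfl
      intro i _
      by_cases h3 : i + j < M ∧ 1 ≤ i ∧ s ≤ j
      · rw [if_pos h3, if_pos (by omega)]
      · rw [if_neg h3, if_neg (by omega)]
    · rw [if_neg hs]
      apply Finset.sum_eq_zero
      intro i _
      rw [if_neg (by omega)]
  rw [h, shift B s fun j => M - 1 - j]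
  have h4 : (∑ j ∈ Finset.range (B - s), (M - 1 - (s + j))) =
      ∑ j ∈ Finset.range (B - s), (M - 1 - s - j) :=
    Finset.sum_congr rfl fun j _ => by omega
  rw [h4, outer (B - s) (M - 1 - s) (by omega)]

/-- The triangle `i + 2 j < 2 M`, `1 ≤ i`, `s ≤ j`. -/
private theorem tri2 (A B M s : ℕ) (hA : 2 * M ≤ A) (hB : M ≤ B) :
    ((Finset.range A ×ˢ Finset.range B).filter
      fun t : ℕ × ℕ => t.1 + 2 * t.2 < 2 * M ∧ 1 ≤ t.1 ∧ s ≤ t.2).card =
      (M - s) * (M - s) := by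
  rw [Finset.card_filter, Finset.sum_product_right]
  have h : (∑ j ∈ Finset.range B, ∑ i ∈ Finset.range A,
      if i + 2 * j < 2 * M ∧ 1 ≤ i ∧ s ≤ j then 1 else 0) =
      ∑ j ∈ Finset.range B, if s ≤ j then 2 * (M - j) - 1 else 0 := by
    apply Finset.sum_congr rfl
    intro j _
    by_cases hs : s ≤ j
    · rw [if_pos hs, ← inner A (2 * (M - j)) (by omega)]
      apply Finset.sum_congr rfl
      intro i _
      by_cases h3 : i + 2 * j < 2 * M ∧ 1 ≤ i ∧ s ≤ j
      · rw [if_pos h3, if_pos (by omega)]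
      · rw [if_neg h3, if_neg (by omega)]
    · rw [if_neg hs]
      apply Finset.sum_eq_zero
      intro i _
      rw [if_neg (by omega)]
  rw [h, shift B s fun j => 2 * (M - j) - 1]
  have h4 : (∑ j ∈ Finset.range (B - s), (2 * (M - (s + j)) - 1)) =
      ∑ j ∈ Finset.range (B - s), (2 * (M - s - j) - 1) :=
    Finset.sum_congr rfl fun j _ => by omega
  rw [h4, outer2 (B - s) (M - s) (by omega)]

/-! ### The root numbers -/

private theorem wT_three_odd {l m : ℕ} (hl : l % 8 = 3) (hm : m % 2 = 1) : wT l m = 1 := by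
  unfold wT
  rw [jacobiSym.at_two (Nat.odd_iff.2 (by omega)), ZMod.χ₈_nat_eq_if_mod_eight,
    if_neg (by omega), if_neg (by omega), (Nat.odd_iff.2 hm).neg_one_pow]
  norm_num

private theorem wT_seven (m : ℕ) : wT 7 m = -1 := by
  unfold wT
  rw [jacobiSym.at_two (by decide), ZMod.χ₈_nat_eq_if_mod_eight, if_neg (by decide),
    if_pos (by decide), one_pow]

private theorem dT_even (w : ℤ) (k : ℕ) : dT w (2 * k + 6) = 2 ^ k * (2 ^ k - 1) := by
  unfold dT
  rw [if_neg (by omega), if_pos (by omega)]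
  have h : (2 * k + 6) / 2 - 3 = k := by omega
  rw [h]

private theorem dT_one (k : ℕ) : dT 1 (2 * k + 5) * 2 = 2 ^ k * (2 ^ k + 1) := by
  unfold dT
  rw [if_neg (by omega), if_neg (by omega), if_pos rfl]
  have h : (2 * k + 5) / 2 - 2 = k := by omega
  rw [h]
  exact Nat.div_mul_cancel (Nat.even_mul_succ_self (2 ^ k)).two_dvd

private theorem dT_neg (k : ℕ) : dT (-1) (2 * k + 5) * 2 = 2 ^ k * (2 ^ k - 1) := by
  unfold dT
  rw [if_neg (by omega), if_neg (by omega), if_neg (by norm_num)]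
  have h : (2 * k + 5) / 2 - 2 = k := by omega
  rw [h]
  exact Nat.div_mul_cancel (Nat.even_mul_pred_self (2 ^ k)).two_dvd

private theorem DT_succ (l n : ℕ) : DT l (n + 1) = DT l n + dT (wT l (n + 1)) (n + 1) := by
  unfold DT
  rw [Finset.sum_range_succ (fun m => dT (wT l m) m) (n + 1)]

private theorem DT_four (l : ℕ) : DT l 4 = 0 := by
  unfold DT
  apply Finset.sum_eq_zero
  intro m hm
  rw [Finset.mem_range] at hm
  unfold dT
  rw [if_pos (by omega)]

/-! ### `l = 3` modulo `8` -/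

private theorem DT_even3 {l : ℕ} (hl : l % 8 = 3) (k : ℕ) :
    DT l (2 * k + 4) * 2 = 2 ^ k * (2 ^ k - 1) := by
  induction k with
  | zero => rw [DT_four]; norm_num
  | succ k ih =>
    have h1 : DT l (2 * (k + 1) + 4) = DT l (2 * k + 4) + dT 1 (2 * k + 5) +
        dT (wT l (2 * k + 6)) (2 * k + 6) := by
      rw [show 2 * (k + 1) + 4 = (2 * k + 5) + 1 by ring, DT_succ,
        show 2 * k + 5 = (2 * k + 4) + 1 by ring, DT_succ, wT_three_odd hl (by omega)]
    rw [h1, add_mul, add_mul, ih, dT_one, dT_even, pow_succ]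
    obtain ⟨a, ha⟩ : ∃ a, 2 ^ k = a + 1 := ⟨2 ^ k - 1, by have := Nat.one_le_two_pow (n := k); omega⟩
    rw [ha]
    have e1 : a + 1 - 1 = a := by omega
    have e2 : (a + 1) * 2 - 1 = 2 * a + 1 := by omega
    rw [e1, e2]
    ring

private theorem DT_odd3 {l : ℕ} (hl : l % 8 = 3) (k : ℕ) : DT l (2 * k + 5) = 2 ^ k * 2 ^ k := by
  have h1 : DT l (2 * k + 5) = DT l (2 * k + 4) + dT 1 (2 * k + 5) := by
    rw [show 2 * k + 5 = (2 * k + 4) + 1 by ring, DT_succ, wT_three_odd hl (by omega)]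
  have h2 := DT_even3 hl k
  have h3 := dT_one k
  obtain ⟨a, ha⟩ : ∃ a, 2 ^ k = a + 1 := ⟨2 ^ k - 1, by have := Nat.one_le_two_pow (n := k); omega⟩
  rw [ha] at h2 h3 ⊢
  have e1 : a + 1 - 1 = a := by omega
  rw [e1] at h2
  have e3 : (a + 1) * a = a * a + a := by ring
  have e4 : (a + 1) * (a + 1 + 1) = a * a + 3 * a + 2 := by ring
  have e5 : (a + 1) * (a + 1) = a * a + 2 * a + 1 := by ring
  rw [e3] at h2
  rw [e4] at h3
  rw [e5]
  omega

/-! ### `l = 7` -/

private theorem DT_even7 (k : ℕ) : DT 7 (2 * k + 4) * 2 = (2 ^ k - 1) * (2 ^ k - 2) := by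
  induction k with
  | zero => rw [DT_four]; norm_num
  | succ k ih =>
    have h1 : DT 7 (2 * (k + 1) + 4) = DT 7 (2 * k + 4) + dT (-1) (2 * k + 5) +
        dT (wT 7 (2 * k + 6)) (2 * k + 6) := by
      rw [show 2 * (k + 1) + 4 = (2 * k + 5) + 1 by ring, DT_succ,
        show 2 * k + 5 = (2 * k + 4) + 1 by ring, DT_succ, wT_seven (2 * k + 4 + 1)]
    rw [h1, add_mul, add_mul, ih, dT_neg, dT_even, pow_succ]
    obtain ⟨a, ha⟩ : ∃ a, 2 ^ k = a + 1 := ⟨2 ^ k - 1, by have := Nat.one_le_two_pow (n := k); omega⟩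
    rw [ha]
    have e1 : a + 1 - 1 = a := by omega
    have e2 : (a + 1) * 2 - 1 = 2 * a + 1 := by omega
    have e3 : (a + 1) * 2 - 2 = 2 * a := by omega
    rw [e1, e2, e3]
    rcases a with _ | a
    · norm_num
    · have e4 : a + 1 + 1 - 2 = a := by omega
      rw [e4]
      ring

private theorem DT_odd7 (k : ℕ) : DT 7 (2 * k + 5) = (2 ^ k - 1) * (2 ^ k - 1) := by
  have h1 : DT 7 (2 * k + 5) = DT 7 (2 * k + 4) + dT (-1) (2 * k + 5) := by
    rw [show 2 * k + 5 = (2 * k + 4) + 1 by ring, DT_succ, wT_seven (2 * k + 4 + 1)]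
  have h2 := DT_even7 k
  have h3 := dT_neg k
  obtain ⟨a, ha⟩ : ∃ a, 2 ^ k = a + 1 := ⟨2 ^ k - 1, by have := Nat.one_le_two_pow (n := k); omega⟩
  rw [ha] at h2 h3 ⊢
  have e1 : a + 1 - 1 = a := by omega
  rw [e1] at h2 h3 ⊢
  rcases a with _ | a
  · omega
  · have e2 : a + 1 + 1 - 2 = a := by omega
    rw [e2] at h2
    have e3 : (a + 1) * a = a * a + a := by ring
    have e4 : (a + 1 + 1) * (a + 1) = a * a + 3 * a + 2 := by ring
    have e5 : (a + 1) * (a + 1) = a * a + 2 * a + 1 := by ring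
    rw [e3] at h2
    rw [e4] at h3
    rw [e5]
    omega

private theorem sh_three {l : ℕ} (hl : l % 8 = 3) : sh l = 0 := by
  unfold sh
  rw [if_neg (by omega)]

private theorem sh_seven : sh 7 = 1 := by
  unfold sh
  rw [if_pos rfl]

/-- CNTT. -/
theorem hCntT : CntT := by
  constructor
  · intro l k hl hk
    obtain ⟨m, rfl⟩ : ∃ m, k = m + 3 := ⟨k - 3, by omega⟩
    have hp : (2 : ℕ) ^ (m + 3 - 1) = 4 * 2 ^ m := by
      rw [show m + 3 - 1 = m + 2 by omega, pow_add]
      ring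
    have hq : (2 : ℕ) ^ (m + 3) = 8 * 2 ^ m := by
      rw [pow_add]
      ring
    have hm : 1 ≤ 2 ^ m := Nat.one_le_two_pow
    have h1 := tri (2 ^ (m + 3)) (2 ^ (m + 3)) (2 * 2 ^ m) (sh l) (by omega) (by omega)
    have h3 : ((Finset.range (2 ^ (m + 3)) ×ˢ Finset.range (2 ^ (m + 3))).filter
        fun t : ℕ × ℕ => 2 * t.1 + 2 * t.2 + 1 < 2 ^ (m + 3 - 1) ∧
          t.1 + 2 * t.2 < 2 ^ (m + 3 - 1) ∧ 1 ≤ t.1 ∧ sh l ≤ t.2) =
        ((Finset.range (2 ^ (m + 3)) ×ˢ Finset.range (2 ^ (m + 3))).filter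
          fun t : ℕ × ℕ => t.1 + t.2 < 2 * 2 ^ m ∧ 1 ≤ t.1 ∧ sh l ≤ t.2) := by
      apply Finset.filter_congr
      intro t _
      rw [hp]
      constructor
      · rintro ⟨h4, h5, h6, h7⟩
        exact ⟨by omega, h6, h7⟩
      · rintro ⟨h4, h6, h7⟩
        exact ⟨by omega, by omega, h6, h7⟩
    rw [h3]
    apply Nat.eq_of_mul_eq_mul_right two_pos
    rw [h1]
    rcases hl.2 with h8 | h8
    · have h2 := DT_even3 h8 (m + 1)
      rw [show 2 * (m + 3) = 2 * (m + 1) + 4 by ring, h2, sh_three h8, pow_succ]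
      have e1 : 2 * 2 ^ m - 1 - 0 + 1 = 2 ^ m * 2 := by omega
      have e2 : 2 * 2 ^ m - 1 - 0 = 2 ^ m * 2 - 1 := by omega
      rw [e1, e2]
      ring
    · subst h8
      have h2 := DT_even7 (m + 1)
      rw [show 2 * (m + 3) = 2 * (m + 1) + 4 by ring, h2, sh_seven, pow_succ]
      have e1 : 2 * 2 ^ m - 1 - 1 + 1 = 2 ^ m * 2 - 1 := by omega
      have e2 : 2 * 2 ^ m - 1 - 1 = 2 ^ m * 2 - 2 := by omega
      rw [e1, e2]
      ring
  · intro l k hl hk
    obtain ⟨m, rfl⟩ : ∃ m, k = m + 2 := ⟨k - 2, by omega⟩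
    have hp : (2 : ℕ) ^ (m + 2 - 1) = 2 * 2 ^ m := by
      rw [show m + 2 - 1 = m + 1 by omega, pow_succ]
      ring
    have hq : (2 : ℕ) ^ (m + 2) = 4 * 2 ^ m := by
      rw [pow_add]
      ring
    have hr : (2 : ℕ) ^ (m + 2 + 1) = 8 * 2 ^ m := by
      rw [add_assoc, pow_add]
      ring
    have h1 := tri2 (2 ^ (m + 2 + 1)) (2 ^ (m + 2 + 1)) (2 ^ m) (sh l) (by omega) (by omega)
    have h3 : ((Finset.range (2 ^ (m + 2 + 1)) ×ˢ Finset.range (2 ^ (m + 2 + 1))).filter
        fun t : ℕ × ℕ => 2 * t.1 + 2 * t.2 + 1 < 2 ^ (m + 2) ∧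
          t.1 + 2 * t.2 < 2 ^ (m + 2 - 1) ∧ 1 ≤ t.1 ∧ sh l ≤ t.2) =
        ((Finset.range (2 ^ (m + 2 + 1)) ×ˢ Finset.range (2 ^ (m + 2 + 1))).filter
          fun t : ℕ × ℕ => t.1 + 2 * t.2 < 2 * 2 ^ m ∧ 1 ≤ t.1 ∧ sh l ≤ t.2) := by
      apply Finset.filter_congr
      intro t _
      rw [hp, hq]
      constructor
      · intro h
        exact h.2
      · rintro ⟨h4, h6, h7⟩
        exact ⟨by omega, h4, h6, h7⟩
    rw [h3, h1]
    rcases hl.2 with h8 | h8
    · rw [show 2 * (m + 2) + 1 = 2 * m + 5 by ring, DT_odd3 h8 m, sh_three h8, Nat.sub_zero]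
    · subst h8
      rw [show 2 * (m + 2) + 1 = 2 * m + 5 by ring, DT_odd7 m, sh_seven]

end Pool.Agent.Helper53.TT
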